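import Mathlib

set_option autoImplicit false

open Filter Topology Complex MeasureTheory AddCircle Metric Function
open scoped Real ENNReal ComplexConjugate

namespace Pool.Agent.H.MP_dc9318_an

abbrev TT := UnitAddCircle

noncomputable abbrev mu : Measure TT := haarAddCircle

lemma fnorm (n : ℤ) (θ : TT) : ‖fourier n θ‖ = 1 := by rw [fourier_apply, Circle.norm_coe]

lemma fadd (n : ℤ) (x y : TT) : fourier n (x + y) = fourier n x * fourier n y := by
  simp only [fourier_apply, smul_add, toCircle_add, Circle.coe_mul]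

lemma fzpow (θ : TT) (j : ℤ) : fourier 1 θ ^ j = fourier j θ := by
  rw [fourier_one, fourier_apply, toCircle_zsmul, Circle.coe_zpow]

lemma polar (w : ℂ) : ∃ s : TT, w = fourier 1 s * ‖w‖ := by
  refine ⟨(w.arg / (2 * π) : ℝ), ?_⟩
  rw [fourier_coe_apply, mul_comm]
  refine (norm_mul_exp_arg_mul_I w).symm.trans ?_
  congr 2
  push_cast
  field_simp

lemma avg (φ : ℂ → ℂ) (w : ℂ) :
    ∫ s, φ (fourier 1 s * w) ∂mu = Real.circleAverage φ 0 ‖w‖ := by
  obtain ⟨s, hs⟩ := polar w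
  have e : ∫ s, φ (fourier 1 s * w) ∂mu = ∫ s, φ (fourier 1 s * ‖w‖) ∂mu := by
    rw [← integral_add_right_eq_self (fun s : TT => φ (fourier 1 s * ‖w‖)) s]
    simp only [fadd, mul_assoc, ← hs]
  have := intervalIntegral.integral_comp_mul_left (a := 0) (b := 1)
    (fun θ => φ (circleMap 0 ‖w‖ θ)) Real.two_pi_pos.ne'
  rw [mul_zero, mul_one, ← Real.circleAverage_def] at this
  rw [e, integral_haarAddCircle, ← UnitAddCircle.intervalIntegral_preimage 0, ← this, inv_one,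
    one_smul, zero_add]
  congr 1
  funext x
  rw [fourier_coe_apply, circleMap_zero, mul_comm]
  congr 3
  push_cast
  ring

lemma avg_ann {φ : ℂ → ℂ} {w w' : ℂ} (h0 : w ≠ 0) (h : ‖w‖ ≤ ‖w'‖)
    (hd : ∀ z, ‖w‖ ≤ ‖z‖ → ‖z‖ ≤ ‖w'‖ → DifferentiableAt ℂ φ z) :
    ∫ s, φ (fourier 1 s * w') ∂mu = ∫ s, φ (fourier 1 s * w) ∂mu := by
  have := norm_pos_iff.2 h0
  rw [avg, avg, Real.circleAverage_eq_circleIntegral this.ne',
    Real.circleAverage_eq_circleIntegral (this.trans_le h).ne',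
    circleIntegral_sub_center_inv_smul_eq_of_differentiable_on_annulus_off_countable this h
    Set.countable_empty (fun z hz => (hd z (by simpa using hz.2)
      (by simpa using hz.1)).continuousAt.continuousWithinAt) fun z hz =>
      hd z (le_of_lt (by simpa using hz.1.2)) (le_of_lt (by simpa using hz.1.1))]

lemma avg_disc {φ : ℂ → ℂ} {w : ℂ} (hd : ∀ z, ‖z‖ ≤ ‖w‖ → DifferentiableAt ℂ φ z) :
    ∫ s, φ (fourier 1 s * w) ∂mu = φ 0 := by
  rw [avg]
  refine DiffContOnCl.circleAverage (DifferentiableOn.diffContOnCl fun z hz =>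
    (hd z ?_).differentiableWithinAt)
  simpa using closure_ball_subset_closedBall hz

variable {n : ℕ}

noncomputable abbrev nu (n : ℕ) : Measure (Fin n → TT) := Measure.pi fun _ => mu

noncomputable def rot (t : Fin n → TT) (z : Fin n → ℂ) : Fin n → ℂ := fun j => fourier 1 (t j) * z j

noncomputable def mono (β : Fin n → ℤ) (z : Fin n → ℂ) : ℂ := ∏ j, z j ^ β j

def ZZ (n : ℕ) : Set (Fin n → ℂ) := {z | ∀ j, z j ≠ 0}

noncomputable def co (h : (Fin n → ℂ) → ℂ) (β : Fin n → ℤ) (z : Fin n → ℂ) : ℂ :=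
  ∫ t, h (rot t z) * mono (-β) (rot t z) ∂nu n

/-- open Reinhardt sets -/
structure Rh (Ω : Set (Fin n → ℂ)) : Prop where
  op : IsOpen Ω
  inv : ∀ z ∈ Ω, ∀ w : Fin n → ℂ, (∀ j, ‖w j‖ = ‖z j‖) → w ∈ Ω

lemma rot_cont : Continuous fun z : (Fin n → TT) × (Fin n → ℂ) => rot z.1 z.2 :=
  continuous_pi fun j => ((map_continuous (fourier 1)).comp
    ((continuous_apply j).comp continuous_fst)).mul ((continuous_apply j).comp continuous_snd)

@[simp] lemma rot_norm (t : Fin n → TT) (z : Fin n → ℂ) (j : Fin n) : ‖rot t z j‖ = ‖z j‖ := by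
  rw [rot, norm_mul, fnorm, one_mul]

lemma rot_Z (t : Fin n → TT) {z : Fin n → ℂ} (hz : z ∈ ZZ n) : rot t z ∈ ZZ n := fun j => by
  rw [← norm_ne_zero_iff, rot_norm, norm_ne_zero_iff]
  exact hz j

lemma mono_diff {β : Fin n → ℤ} {z : Fin n → ℂ} (h : ∀ j, z j ≠ 0 ∨ 0 ≤ β j) :
    DifferentiableAt ℂ (mono β) z := by
  unfold mono
  have d : ∀ j, DifferentiableAt ℂ (fun z : Fin n → ℂ => z j ^ β j) z := fun j =>
    DifferentiableAt.comp (g := fun x : ℂ => x ^ β j) z (differentiableAt_zpow.2 (h j))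
      (differentiableAt_apply j z)
  exact (HasFDerivAt.finsetProd fun j _ => (d j).hasFDerivAt).differentiableAt

lemma mono_cont (β : Fin n → ℤ) : ContinuousOn (mono β) (ZZ n) := fun _ hz =>
  (mono_diff fun j => Or.inl (hz j)).continuousAt.continuousWithinAt

lemma mono_add (β γ : Fin n → ℤ) {z : Fin n → ℂ} (hz : z ∈ ZZ n) :
    mono (β + γ) z = mono β z * mono γ z := by
  simp only [mono, Pi.add_apply, zpow_add₀ (hz _), Finset.prod_mul_distrib]

lemma mono_ne (β : Fin n → ℤ) {z : Fin n → ℂ} (hz : z ∈ ZZ n) : mono β z ≠ 0 :=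
  Finset.prod_ne_zero_iff.2 fun j _ => zpow_ne_zero _ (hz j)

lemma mono_rot (β : Fin n → ℤ) (t : Fin n → TT) (z : Fin n → ℂ) :
    mono β (rot t z) = UnitAddTorus.mFourier β t * mono β z := by
  simp only [mono, rot, mul_zpow, fzpow, Finset.prod_mul_distrib]
  rfl

lemma mono_norm (β : Fin n → ℤ) {z w : Fin n → ℂ} (h : ∀ j, ‖w j‖ = ‖z j‖) :
    ‖mono β w‖ = ‖mono β z‖ := by
  simp only [mono, norm_prod, norm_zpow, h]

lemma Z_open : IsOpen (ZZ n) := by
  rw [ZZ, Set.ofPred_forall]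
  exact isOpen_iInter_of_finite fun j => isOpen_ne_fun (continuous_apply j) continuous_const

lemma Z_dense : Dense (ZZ n) := by
  have := dense_pi (α := fun _ : Fin n => ℂ) Set.univ fun _ _ => dense_compl_singleton (0 : ℂ)
  refine this.mono fun _ h => ?_
  exact fun j => h j trivial

lemma Z_ae : ∀ᵐ z : Fin n → ℂ, z ∈ ZZ n := ae_all_iff.2 fun j => Measure.ae_eval_ne _ j 0

variable {Ω : Set (Fin n → ℂ)} {h : (Fin n → ℂ) → ℂ}

lemma Rh.nb (H : Rh Ω) {p : Fin n → ℂ} (hp : p ∈ Ω) :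
    ∃ ε > 0, ∀ z : Fin n → ℂ, (∀ j, |‖z j‖ - ‖p j‖| < ε) → z ∈ Ω := by
  obtain ⟨ε, h0, h1⟩ := Metric.isOpen_iff.1 H.op (fun j => (‖p j‖ : ℂ)) (H.inv p hp _ (by simp))
  refine ⟨ε, h0, fun z hz => H.inv (fun j => (‖z j‖ : ℂ)) (h1 ?_) z (by simp)⟩
  rw [mem_ball, dist_pi_lt_iff h0]
  intro j
  rw [dist_eq, ← ofReal_sub, norm_real]
  exact hz j

lemma Rh.cont (H : Rh Ω) (hd : ContinuousOn h Ω) (β : Fin n → ℤ) :
    ContinuousOn (fun x : (Fin n → TT) × (Fin n → ℂ) => h (rot x.1 x.2) * mono β (rot x.1 x.2))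
      (Set.univ ×ˢ (Ω ∩ ZZ n)) :=
  (hd.comp rot_cont.continuousOn fun _ hx => H.inv _ hx.2.1 _ (rot_norm _ _)).mul
    ((mono_cont β).comp rot_cont.continuousOn fun _ hx => rot_Z _ hx.2.2)

lemma Rh.split (H : Rh Ω) (hd : ContinuousOn h Ω) (β : Fin n → ℤ) {z : Fin n → ℂ}
    (hz : z ∈ Ω ∩ ZZ n) (i : Fin n) : co h β z = ∫ t, ∫ s, (fun w => h (rot t (update z i w)) *
      mono (-β) (rot t (update z i w))) (fourier 1 s * z i) ∂mu ∂nu n := by
  have e : ∀ (s : TT) t, rot t (update z i (fourier 1 s * z i)) = rot (t + Pi.single i s) z :=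
    fun s t => by
    funext j
    rcases eq_or_ne j i with rfl | k
    · simp only [rot, update_self, Pi.add_apply, Pi.single_eq_same, fadd, mul_assoc]
    · simp only [rot, update_of_ne k, Pi.add_apply, Pi.single_eq_of_ne k, add_zero]
  simp only [e]
  rw [integral_integral_swap]
  · simp only [integral_add_right_eq_self (fun t => h (rot t z) * mono (-β) (rot t z))]
    simp [co]
  · refine Continuous.integrable_of_hasCompactSupport ?_ (HasCompactSupport.of_compactSpace _)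
    have c : Continuous fun x : (Fin n → TT) × TT => (x.1 + Pi.single i x.2, z) :=
      (continuous_fst.add ((continuous_single i).comp continuous_snd)).prodMk continuous_const
    have := (H.cont hd (-β)).comp_continuous c fun _ => ⟨trivial, hz⟩
    exact this

lemma Rh.dif (H : Rh Ω) (hd : DifferentiableOn ℂ h Ω) (β : Fin n → ℤ) {z : Fin n → ℂ}
    (hz : z ∈ ZZ n) (i : Fin n) (t : Fin n → TT) {w : ℂ} (h1 : update z i w ∈ Ω)
    (h2 : w ≠ 0 ∨ β i < 0) : DifferentiableAt ℂ (fun w => h (rot t (update z i w)) *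
      mono (-β) (rot t (update z i w))) w := by
  have d : DifferentiableAt ℂ (fun w => rot t (update z i w)) w :=
    differentiableAt_pi.2 fun j => by
      rcases eq_or_ne j i with rfl | k
      · simp only [rot, update_self]; fun_prop
      · simp only [rot, update_of_ne k]; fun_prop
  refine ((hd.differentiableAt (H.op.mem_nhds (H.inv _ h1 _ (rot_norm _ _)))).comp w d).mul
    ((mono_diff fun j => ?_).comp w d)
  rw [← norm_ne_zero_iff, rot_norm, norm_ne_zero_iff]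
  rcases eq_or_ne j i with rfl | k
  · simpa using h2.imp_right le_of_lt
  · simp [update_of_ne k, hz j]

lemma Rh.loc (H : Rh Ω) (hd : DifferentiableOn ℂ h Ω) (β : Fin n → ℤ) {p : Fin n → ℂ} {ε : ℝ}
    (hε : ∀ z : Fin n → ℂ, (∀ j, |‖z j‖ - ‖p j‖| < ε) → z ∈ Ω) {z z' : Fin n → ℂ}
    (h1 : z ∈ ZZ n) (h2 : z' ∈ ZZ n) (k1 : ∀ j, |‖z j‖ - ‖p j‖| < ε)
    (k2 : ∀ j, |‖z' j‖ - ‖p j‖| < ε) : co h β z' = co h β z := by
  have up : ∀ (y : Fin n → ℂ) i w, (∀ j, |‖y j‖ - ‖p j‖| < ε) → |‖w‖ - ‖p i‖| < ε →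
      update y i w ∈ Ω := fun y i w a b => hε _ fun j => by
    rcases eq_or_ne j i with rfl | k
    · simpa using b
    · simpa [update_of_ne k] using a j
  have one : ∀ (y : Fin n → ℂ) i w w', y ∈ ZZ n → (∀ j, |‖y j‖ - ‖p j‖| < ε) → w ≠ 0 → w' ≠ 0 →
      |‖w‖ - ‖p i‖| < ε → |‖w'‖ - ‖p i‖| < ε → co h β (update y i w') = co h β (update y i w) := by
    intro y i w w' a b c c' d d'
    wlog e : ‖w‖ ≤ ‖w'‖ generalizing w w'
    · exact (this w' w c' c d' d (le_of_not_ge e)).symm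
    have m : ∀ w, w ≠ 0 → update y i w ∈ ZZ n := fun w c j => by
      rcases eq_or_ne j i with rfl | k
      · simpa using c
      · simpa [update_of_ne k] using a j
    rw [H.split hd.continuousOn β ⟨up y i w b d, m w c⟩ i,
      H.split hd.continuousOn β ⟨up y i w' b d', m w' c'⟩ i]
    simp only [update_idem, update_self]
    congr 1
    funext t
    refine avg_ann (φ := fun w => h (rot t (update y i w)) * mono (-β) (rot t (update y i w))) c e
      fun v v1 v2 => H.dif hd β a i t (up y i v b ?_) (Or.inl ?_)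
    · rw [abs_lt] at d d' ⊢
      constructor <;> linarith [d.1, d'.2]
    · exact norm_pos_iff.1 ((norm_pos_iff.2 c).trans_le v1)
  have : ∀ S : Finset (Fin n), co h β (S.piecewise z' z) = co h β z := fun S => by
    induction S using Finset.induction_on with
    | empty => simp
    | insert i S hi ih =>
      have q : ∀ P : Fin n → ℂ → Prop, (∀ j, P j (z j)) → (∀ j, P j (z' j)) →
          ∀ j, P j (S.piecewise z' z j) := fun P a b j => by
        rw [Finset.piecewise]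
        split_ifs
        exacts [b j, a j]
      rw [Finset.piecewise_insert, one _ i (z i) _ (q (fun _ w => w ≠ 0) h1 h2)
        (q (fun j w => |‖w‖ - ‖p j‖| < ε) k1 k2) (h1 i) (h2 i) (k1 i) (k2 i), ← ih,
        ← S.piecewise_eq_of_notMem z' z hi, update_eq_self]
  simpa using this Finset.univ

lemma nb_ev (p : Fin n → ℂ) {ε : ℝ} (h0 : 0 < ε) : ∀ᶠ z in 𝓝 p, ∀ j, |‖z j‖ - ‖p j‖| < ε :=
  eventually_all.2 fun j => ContinuousAt.eventually_lt (g := fun _ => ε)
    ((continuous_apply j).norm.sub continuous_const).abs.continuousAt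
    continuousAt_const (by simpa using h0)

lemma Rh.glob (H : Rh Ω) (hc : IsConnected Ω) (hd : DifferentiableOn ℂ h Ω) (β : Fin n → ℤ) :
    ∃ c : ℂ, (∀ z ∈ Ω ∩ ZZ n, co h β z = c) ∧ ∀ p ∈ Ω, ∀ i, p i = 0 → β i < 0 → c = 0 := by
  have fr : ∀ (p : Fin n → ℂ) {P : (Fin n → ℂ) → Prop}, (∀ᶠ z in 𝓝 p, P z) → ∃ z ∈ ZZ n, P z :=
    fun p P hP => ((mem_closure_iff_frequently.1 (Z_dense p)).and_eventually hP).exists
  have l : ∀ p ∈ Ω, ∃ c, ∀ᶠ z in 𝓝 p, z ∈ ZZ n → co h β z = c := fun p hp => by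
    obtain ⟨ε, h0, h1⟩ := H.nb hp
    obtain ⟨y, a, b⟩ := fr p (nb_ev p h0)
    exact ⟨_, (nb_ev p h0).mono fun z c d => H.loc hd β h1 a d b c⟩
  choose! c hc' using l
  obtain ⟨x, hx⟩ := hc.nonempty
  have e : ∀ y ∈ Ω, c x = c y := fun y hy => hc.isPreconnected.induction₂' (fun a b => c a = c b)
    (fun a ha => by
      filter_upwards [nhdsWithin_le_nhds (hc' a ha).eventually_nhds, self_mem_nhdsWithin]
        with b h1 h2
      obtain ⟨z, k1, k2, k3⟩ := fr b (h1.and (hc' b h2))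
      exact ⟨(k2 k1).symm.trans (k3 k1), (k3 k1).symm.trans (k2 k1)⟩)
    (fun _ _ _ _ _ _ => Eq.trans) hx hy
  have e2 : ∀ z ∈ Ω ∩ ZZ n, co h β z = c x := fun z hz =>
    ((hc' z hz.1).self_of_nhds hz.2).trans (e z hz.1).symm
  refine ⟨c x, e2, fun p hp i h1 h2 => ?_⟩
  obtain ⟨ε, h0, h3⟩ := H.nb hp
  obtain ⟨y, a, b⟩ := fr p (nb_ev p h0)
  rw [← e2 y ⟨h3 y b, a⟩, H.split hd.continuousOn β ⟨h3 y b, a⟩ i]
  refine (integral_congr_ae (Eventually.of_forall fun t => ?_)).trans (integral_zero _ _)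
  refine (avg_disc fun v hv => H.dif hd β a i t (h3 _ fun j => ?_) (Or.inr h2)).trans ?_
  · rcases eq_or_ne j i with rfl | k
    · have := b j
      simp only [h1, norm_zero, sub_zero, abs_norm, update_self] at this ⊢
      linarith
    · simpa [update_of_ne k] using b j
  · rw [mono, Finset.prod_eq_zero (Finset.mem_univ i) (by simp [rot, zero_zpow _ h2.ne]), mul_zero]

lemma rot_mp (t : Fin n → TT) : MeasurePreserving (rot t) := by
  have := volume_preserving_pi (f := fun (i : Fin n) (z : ℂ) => rotation (toCircle (t i)) z)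
    fun _ => (rotation _).measurePreserving
  convert this using 1
  funext x i
  simp [rot]

lemma rot_int {K : Set (Fin n → ℂ)} (hK : ∀ z ∈ K, ∀ w : Fin n → ℂ, (∀ j, ‖w j‖ = ‖z j‖) → w ∈ K)
    (t : Fin n → TT) (F : (Fin n → ℂ) → ℂ) : ∫ z in K, F (rot t z) = ∫ z in K, F z := by
  have e : rot t ⁻¹' K = K := Set.ext fun z =>
    ⟨fun h => hK _ h _ fun j => (rot_norm t z j).symm, fun h => hK _ h _ (rot_norm t z)⟩
  have := (rot_mp t).setIntegral_preimage_emb (Homeomorph.piCongrRight fun j => Homeomorph.mulLeft₀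
    (fourier 1 (t j)) (norm_pos_iff.1 (by rw [fnorm]; exact one_pos))).measurableEmbedding F K
  rwa [e] at this

lemma Rh.int (H : Rh Ω) (hd : ContinuousOn h Ω) {β : Fin n → ℤ} {c : ℂ}
    (hc : ∀ z ∈ Ω ∩ ZZ n, co h β z = c) {K : Set (Fin n → ℂ)} (K1 : IsCompact K)
    (K2 : K ⊆ Ω ∩ ZZ n) (K3 : ∀ z ∈ K, ∀ w : Fin n → ℂ, (∀ j, ‖w j‖ = ‖z j‖) → w ∈ K)
    {κ : (Fin n → ℂ) → ℂ} (k1 : ContinuousOn κ (ZZ n)) (k2 : ∀ t z, κ (rot t z) = κ z) :
    ∫ z in K, h z * mono (-β) z * κ z = c * ∫ z in K, κ z := by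
  have i : Integrable (uncurry fun t z => h (rot t z) * mono (-β) (rot t z) * κ z)
      ((nu n).prod (volume.restrict K)) := by
    rw [← Measure.restrict_univ (μ := nu n), Measure.prod_restrict]
    exact ContinuousOn.integrableOn_compact (isCompact_univ.prod K1)
      (((H.cont hd (-β)).mono (Set.prod_mono_right K2)).mul
      (k1.comp continuousOn_snd fun x hx => (K2 hx.2).2))
  have e := integral_integral_swap i
  have e2 := fun t => rot_int K3 t fun z => h z * mono (-β) z * κ z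
  simp only [k2] at e2
  simp only [e2, integral_const, probReal_univ, one_smul, integral_mul_const] at e
  rw [e, ← integral_const_mul]
  exact setIntegral_congr_fun K1.measurableSet fun z hz => congrArg (· * κ z) (hc z (K2 hz))

lemma Rh.uniq (H : Rh Ω) (hd : ContinuousOn h Ω) {z : Fin n → ℂ} (hz : z ∈ Ω ∩ ZZ n)
    (h0 : ∀ β ≠ 0, co h β z = 0) : h z = co h 0 z := by
  let F : C(UnitAddTorus (Fin n), ℂ) := ⟨fun t => h (rot t z), hd.comp_continuous
    (rot_cont.comp (Continuous.prodMk_left z)) fun t => H.inv _ hz.1 _ (rot_norm _ _)⟩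
  have e : ∀ β, co h β z = UnitAddTorus.mFourierCoeff F β * mono (-β) z := fun β => by
    simp only [co, mono_rot, ← mul_assoc, integral_mul_const]
    simp only [mul_comm (h _)]
    rfl
  have k : ∀ β ≠ 0, UnitAddTorus.mFourierCoeff F β = 0 := fun β hβ =>
    (mul_eq_zero.1 ((e β).symm.trans (h0 β hβ))).resolve_right (mono_ne _ hz.2)
  have := (UnitAddTorus.hasSum_mFourier_series_apply_of_summable (hasSum_single 0 k).summable
    0).unique (hasSum_single 0 fun β hβ => by rw [k β hβ, zero_smul])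
  rw [e, show z = rot 0 z from funext fun j => by simp [rot]]
  refine this.trans ?_
  simp [UnitAddTorus.mFourier_zero, mono]

lemma Rh.exh (H : Rh Ω) (hb : Bornology.IsBounded Ω) : ∃ K : ℕ → Set (Fin n → ℂ),
    (∀ m, IsCompact (K m)) ∧ (∀ m, K m ⊆ Ω ∩ ZZ n) ∧ ⋃ m, K m = Ω ∩ ZZ n ∧ Monotone K ∧
    ∀ m, ∀ z ∈ K m, ∀ w : Fin n → ℂ, (∀ j, ‖w j‖ = ‖z j‖) → w ∈ K m := by
  obtain ⟨F, h1, h2, h3, h4⟩ := (H.op.inter Z_open).exists_iUnion_isClosed
  have a : ∀ z w : Fin n → ℂ, (∀ j, ‖w j‖ = ‖z j‖) → z ∈ Ω ∩ ZZ n → w ∈ Ω ∩ ZZ n :=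
    fun z w e hz => ⟨H.inv z hz.1 w e, fun j => by
      rw [← norm_ne_zero_iff, e, norm_ne_zero_iff]; exact hz.2 j⟩
  have b : ∀ m, (fun (z : Fin n → ℂ) j => (‖z j‖ : ℂ)) ⁻¹' F m ⊆ Ω ∩ ZZ n := fun m z hz =>
    a _ z (by simp) (h2 m hz)
  refine ⟨fun m => (fun z j => (‖z j‖ : ℂ)) ⁻¹' F m, fun m => isCompact_of_isClosed_isBounded
    ((h1 m).preimage (by fun_prop)) (hb.subset fun z hz => (b m hz).1), b,
    (Set.iUnion_subset b).antisymm fun z hz => ?_, fun _ _ k => Set.preimage_mono (h4 k),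
    fun m z hz w e => by simpa only [Set.mem_preimage, e] using hz⟩
  rw [← Set.preimage_iUnion, h3]
  exact a z _ (by simp) hz

end Pool.Agent.H.MP_dc9318_an
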