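import Mathlib

set_option autoImplicit false

open MeasureTheory

namespace Pool.Agent.H.MP_dc9318_an

/-- The Bergman space: the classes in `L²(Ω)` that have a holomorphic representative on `Ω`. -/
def Berg {E : Type} [NormedAddCommGroup E] [NormedSpace ℂ E] [MeasureSpace E] (Ω : Set E) :
    Submodule ℂ (Lp ℂ 2 (volume.restrict Ω)) where
  carrier := {u | ∃ h : E → ℂ, DifferentiableOn ℂ h Ω ∧ u =ᵐ[volume.restrict Ω] h}
  add_mem' := fun ⟨g, h1, h2⟩ ⟨h, h3, h4⟩ => ⟨g + h, h1.add h3, (Lp.coeFn_add _ _).trans (h2.add h4)⟩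
  zero_mem' := ⟨0, differentiableOn_const 0, Lp.coeFn_zero _ _ _⟩
  smul_mem' := fun c _ ⟨g, h1, h2⟩ =>
    ⟨c • g, h1.const_smul c, (Lp.coeFn_smul _ _).trans (h2.const_smul c)⟩

end Pool.Agent.H.MP_dc9318_an
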