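import Pool.Agent.H.MP_dc9318_an.A
import Pool.Agent.H.MP_dc9318_an.Defs

set_option autoImplicit false

open Filter Topology Complex MeasureTheory Function
open scoped Real ENNReal ComplexConjugate InnerProductSpace

namespace Pool.Agent.H.MP_dc9318_an

lemma pars {A ι : Type*} [NormedAddCommGroup A] [InnerProductSpace ℂ A] (e : HilbertBasis ι ℂ A)
    (x : A) : HasSum (fun i => ‖⟪e i, x⟫_ℂ‖ ^ 2) (‖x‖ ^ 2) := by
  have := e.hasSum_inner_mul_inner x x
  simp only [← inner_conj_symm x (e _), conj_mul', inner_self_eq_norm_sq_to_K] at this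
  exact hasSum_ofReal.1 (by simpa using this)

lemma hsb {A H ι κ : Type*} [NormedAddCommGroup A] [InnerProductSpace ℂ A] [NormedAddCommGroup H]
    [InnerProductSpace ℂ H] [CompleteSpace H] (T : A →L[ℂ] H) (e : HilbertBasis ι ℂ A)
    (hs : Summable fun k => ‖T (e k)‖ ^ 2) {u : κ → A} (hu : Orthonormal ℂ u) :
    Summable fun k => ‖T (u k)‖ ^ 2 := by
  have := e.repr.toIsometryEquiv.completeSpace
  obtain ⟨w, v, -⟩ := exists_hilbertBasis ℂ H
  refine summable_of_sum_le (c := ∑' k, ‖T (e k)‖ ^ 2) (fun _ => sq_nonneg _) fun s => ?_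
  refine hasSum_le_of_sum_le (hasSum_sum fun i (_ : i ∈ s) => pars v (T (u i))) fun J => ?_
  refine le_trans (Finset.sum_le_sum fun j _ => ?_) (hasSum_le (fun k => ?_)
    (hasSum_sum fun j (_ : j ∈ J) => pars e (T.adjoint (v j))) hs.hasSum)
  · simpa only [← T.adjoint_inner_left, norm_inner_symm (T.adjoint _)] using
      hu.sum_inner_products_le (s := s) (T.adjoint (v j))
  · simpa only [T.adjoint_inner_right, norm_inner_symm (T _)] using
      v.orthonormal.sum_inner_products_le (s := J) (T (e k))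

variable {n : ℕ} {Ω : Set (Fin n → ℂ)}

lemma tst {K : Set (Fin n → ℂ)} (K1 : IsCompact K) (K2 : K ⊆ Ω) {ψ : (Fin n → ℂ) → ℂ}
    (hψ : ContinuousOn ψ K) : ∃ y : Lp ℂ 2 (volume.restrict Ω), ‖y‖ ^ 2 = ∫ z in K, ‖ψ z‖ ^ 2 ∧
      ∀ (v : Lp ℂ 2 (volume.restrict Ω)) (g : (Fin n → ℂ) → ℂ), v =ᵐ[volume.restrict Ω] g →
        ⟪y, v⟫_ℂ = ∫ z in K, ψ z * g z := by
  have m := K1.measurableSet
  have r : (volume.restrict Ω).restrict K = volume.restrict K := Measure.restrict_restrict_of_subset K2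
  obtain ⟨C, hC⟩ := K1.exists_bound_of_continuousOn hψ
  have : IsFiniteMeasure (volume.restrict K) := isFiniteMeasure_restrict.2 K1.measure_lt_top.ne
  have h : MemLp (K.indicator fun z => conj (ψ z)) 2 (volume.restrict Ω) := by
    rw [memLp_indicator_iff_restrict m, r]
    exact MemLp.of_bound ((continuous_conj.comp_continuousOn hψ).aestronglyMeasurable m) C
      ((ae_restrict_mem m).mono fun z hz => by simpa using hC z hz)
  have k : ∀ (v : Lp ℂ 2 (volume.restrict Ω)) (g : (Fin n → ℂ) → ℂ), v =ᵐ[volume.restrict Ω] g →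
      ⟪h.toLp, v⟫_ℂ = ∫ z in K, ψ z * g z := fun v g hv => by
    rw [L2.inner_def, ← r, ← integral_indicator m]
    refine integral_congr_ae ?_
    filter_upwards [h.coeFn_toLp, hv] with z h1 h2
    rw [h1, h2]
    by_cases hz : z ∈ K <;> simp [hz, mul_comm]
  refine ⟨h.toLp, ?_, k⟩
  have := k _ _ h.coeFn_toLp
  rw [inner_self_eq_norm_sq_to_K, setIntegral_congr_fun m (g := fun z => ((‖ψ z‖ ^ 2 : ℝ) : ℂ))
    fun z hz => by simp [hz, mul_conj'], integral_complex_ofReal] at this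
  exact ofReal_inj.1 (by simpa using this)

noncomputable def NN (β : Fin n → ℤ) (z : Fin n → ℂ) : ℝ := ‖mono β z‖ ^ 2

lemma NN_pos (β : Fin n → ℤ) {z : Fin n → ℂ} (hz : z ∈ ZZ n) : 0 < NN β z :=
  pow_pos (norm_pos_iff.2 (mono_ne β hz)) 2

lemma NN_add (β γ : Fin n → ℤ) {z : Fin n → ℂ} (hz : z ∈ ZZ n) :
    NN (β + γ) z = NN β z * NN γ z := by rw [NN, mono_add β γ hz, norm_mul, mul_pow, NN, NN]

lemma NN_cont (β : Fin n → ℤ) : ContinuousOn (NN β) (ZZ n) := (mono_cont β).norm.pow 2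

lemma NN_cont' (β : Fin n → ℤ) : ContinuousOn (fun z => (NN β z : ℂ)) (ZZ n) :=
  continuous_ofReal.comp_continuousOn (NN_cont β)

lemma NN_rot (β : Fin n → ℤ) (t : Fin n → TT) (z : Fin n → ℂ) : NN β (rot t z) = NN β z := by
  rw [NN, mono_norm β (rot_norm t z), NN]

lemma conj_mono (β : Fin n → ℤ) {z : Fin n → ℂ} (hz : z ∈ ZZ n) :
    conj (mono β z) = mono (-β) z * NN β z := by
  have := mono_add (-β) β hz
  rw [neg_add_cancel, show mono 0 z = 1 by simp [mono]] at this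
  rw [NN, ofReal_pow, ← mul_conj', ← mul_assoc, ← this, one_mul]

def Adm (Ω : Set (Fin n → ℂ)) (β : Fin n → ℤ) : Prop := ∀ p ∈ Ω, ∀ i, p i = 0 → 0 ≤ β i

lemma est (H : Rh Ω) (hc : IsConnected Ω) {f : (Fin n → ℂ) → ℂ} (hf : DifferentiableOn ℂ f Ω)
    (T : Berg Ω →L[ℂ] Lp ℂ 2 (volume.restrict Ω))
    (hD : Dense {g : Berg Ω | MemLp (fun z => conj (f z) * g.1 z) 2 (volume.restrict Ω)})
    (hT : ∀ g : Berg Ω, ∀ hg : MemLp (fun z => conj (f z) * g.1 z) 2 (volume.restrict Ω),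
      hg.toLp _ - T g ∈ Berg Ω)
    {K : ℕ → Set (Fin n → ℂ)} (K1 : ∀ m, IsCompact (K m)) (K2 : ∀ m, K m ⊆ Ω ∩ ZZ n)
    (K3 : ∀ m, ∀ z ∈ K m, ∀ w : Fin n → ℂ, (∀ j, ‖w j‖ = ‖z j‖) → w ∈ K m)
    {α γ : Fin n → ℤ} {a : ℂ} (ha : ∀ z ∈ Ω ∩ ZZ n, co f α z = a) {u : Berg Ω}
    (hu : u.1 =ᵐ[volume.restrict Ω] mono γ) {l : ℕ} (hl : volume (K l) ≠ 0) :
    ∃ c : ℂ, (¬Adm Ω (γ - α) → c = 0) ∧
      ∀ m, ∫ z in K m, ‖conj a * NN α z - c‖ ^ 2 * NN (γ - α) z ≤ ‖T u‖ ^ 2 := by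
  set β := γ - α with hβ
  have KZ : ∀ m, K m ⊆ ZZ n := fun m _ hz => (K2 m hz).2
  have KO : ∀ m, K m ⊆ Ω := fun m _ hz => (K2 m hz).1
  have c2 : ∀ m {κ : (Fin n → ℂ) → ℂ}, ContinuousOn κ (ZZ n) →
      ContinuousOn (fun z => conj (mono β z) * κ z) (K m) := fun m κ k =>
    ((continuous_conj.comp_continuousOn (mono_cont β)).mul k).mono (KZ m)
  choose y2 n2 i2 using fun m κ (k : ContinuousOn κ (ZZ n)) => tst (K1 m) (KO m) (c2 m k)
  choose y1 _ i1 using fun m κ (k : ContinuousOn κ (ZZ n)) => tst (K1 m) (KO m)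
    ((c2 m k).mul (continuous_conj.comp_continuousOn (hf.continuousOn.mono (KO m))))
  have s1 : ∀ g : Berg Ω, MemLp (fun z => conj (f z) * g.1 z) 2 (volume.restrict Ω) → ∃ c : ℂ,
      (¬Adm Ω β → c = 0) ∧ ∀ m κ k, (∀ t z, κ (rot t z) = κ z) →
        ⟪y1 m κ k, g.1⟫_ℂ - ⟪y2 m κ k, T g⟫_ℂ = c * ∫ z in K m, NN β z * κ z := fun g hg => by
    obtain ⟨h, h1, h2⟩ := hT g hg
    obtain ⟨c, h3, h4⟩ := H.glob hc h1 β
    refine ⟨c, fun k => ?_, fun m κ k k' => ?_⟩
    · simp only [Adm, not_forall, not_le] at k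
      obtain ⟨p, hp, i, k1, k2⟩ := k
      exact h4 p hp i k1 k2
    rw [← H.int h1.continuousOn h3 (K1 m) (K2 m) (K3 m) (κ := fun z => NN β z * κ z)
      ((NN_cont' β).mul k) fun t z => by simp only [NN_rot, k'], i1 m κ k _ _ EventuallyEq.rfl]
    simp only [Pi.mul_apply, comp, mul_assoc _ (conj (f _))]
    rw [← i2 m κ k _ _ hg.coeFn_toLp, ← inner_sub_right, i2 m κ k _ _ h2]
    exact setIntegral_congr_fun (K1 m).measurableSet fun z hz => by
      simp only [conj_mono β (KZ m hz)]; ring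
  have I0 : ∫ z in K l, (NN β z : ℂ) * 1 ≠ 0 := by
    simp only [mul_one, integral_complex_ofReal, ne_eq, ofReal_eq_zero]
    rw [setIntegral_eq_zero_iff_of_nonneg_ae (f := NN β) (Eventually.of_forall fun _ => sq_nonneg _)
      (((NN_cont β).mono (KZ l)).integrableOn_compact (K1 l))]
    exact fun h => hl (Measure.restrict_eq_zero.1 (ae_eq_bot.1 (eventually_false_iff_eq_bot.1 (by
      filter_upwards [h, ae_restrict_mem (K1 l).measurableSet] with z h1 h2
      exact (NN_pos β (KZ l h2)).ne' h1))))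
  let C : Berg Ω → ℂ := fun g => (⟪y1 l (fun _ => 1) continuousOn_const, g.1⟫_ℂ -
    ⟪y2 l (fun _ => 1) continuousOn_const, T g⟫_ℂ) / ∫ z in K l, (NN β z : ℂ) * 1
  have Cc : Continuous C := by fun_prop
  have s2 : ∀ m κ k, (∀ t z, κ (rot t z) = κ z) →
      ⟪y1 m κ k, u.1⟫_ℂ - ⟪y2 m κ k, T u⟫_ℂ = C u * ∫ z in K m, NN β z * κ z := fun m κ k k' =>
    congrFun (Continuous.ext_on hD (f := fun g => ⟪y1 m κ k, g.1⟫_ℂ - ⟪y2 m κ k, T g⟫_ℂ)
      (g := fun g => C g * ∫ z in K m, NN β z * κ z) (by fun_prop) (by fun_prop) fun g hg => by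
      obtain ⟨c, -, h⟩ := s1 g hg
      simp only [C, h m κ k k', h l (fun _ => 1) _ fun _ _ => rfl, mul_div_cancel_right₀ _ I0]) u
  refine ⟨C u, fun k => congrFun (Continuous.ext_on hD Cc continuous_const fun g hg => ?_) u,
    fun m => ?_⟩
  · obtain ⟨c, h0, h⟩ := s1 g hg
    simp only [C, h l (fun _ => 1) _ fun _ _ => rfl, h0 k, zero_mul, zero_div]
  generalize C u = c at s2
  have k : ContinuousOn (fun z => conj (conj a * NN α z - c)) (ZZ n) :=
    continuous_conj.comp_continuousOn ((continuousOn_const.mul (NN_cont' α)).sub continuousOn_const)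
  have s3 := s2 m _ k fun t z => by rw [NN_rot]
  have s4 := H.int hf.continuousOn ha (K1 m) (K2 m) (K3 m) (κ := fun z => NN γ z *
    (conj a * NN α z - c)) ((NN_cont' γ).mul ((continuousOn_const.mul (NN_cont' α)).sub
    continuousOn_const)) fun t z => by simp only [NN_rot]
  have s5 : ⟪y1 m _ k, u.1⟫_ℂ = ∫ z in K m, conj a * (NN γ z * conj (conj a * NN α z - c)) := by
    rw [i1 m _ k _ _ hu, integral_const_mul]
    have := congrArg conj s4
    simp only [map_mul (starRingEnd ℂ), ← integral_conj, conj_ofReal] at this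
    rw [← this]
    refine setIntegral_congr_fun (K1 m).measurableSet fun z hz => ?_
    simp only [Pi.mul_apply, comp, hβ, sub_eq_add_neg γ, mono_add _ _ (KZ m hz), map_mul, NN,
      ofReal_pow, ← mul_conj']
    ring
  have i : ∀ δ, IntegrableOn (fun z => (NN δ z : ℂ) * conj (conj a * NN α z - c)) (K m) :=
    fun δ => (((NN_cont' δ).mul k).mono (KZ m)).integrableOn_compact (K1 m)
  have s6 : ⟪y2 m _ k, T u⟫_ℂ = (∫ z in K m, ‖conj a * NN α z - c‖ ^ 2 * NN β z : ℝ) := by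
    rw [sub_eq_iff_eq_add', ← sub_eq_iff_eq_add] at s3
    rw [← s3, s5, ← integral_const_mul, ← integral_sub ((i γ).const_mul _) ((i β).const_mul _),
      ← integral_complex_ofReal]
    refine setIntegral_congr_fun (K1 m).measurableSet fun z hz => ?_
    have := NN_add β α (KZ m hz)
    rw [hβ, sub_add_cancel, ← hβ] at this
    simp only [this, ofReal_mul, ofReal_pow, ← mul_conj']
    ring
  have s7 : ‖y2 m _ k‖ ^ 2 = ∫ z in K m, ‖conj a * NN α z - c‖ ^ 2 * NN β z := by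
    simp only [n2, norm_mul, norm_conj, mul_pow, NN, mul_comm]
  have s8 := norm_inner_le_norm (𝕜 := ℂ) (y2 m _ k) (T u)
  rw [s6, ← s7, norm_real, norm_pow, norm_norm] at s8
  rw [← s7]
  nlinarith [sq_nonneg (‖y2 m _ k‖ - ‖T u‖)]

lemma mono_meas (β : Fin n → ℤ) : Measurable (mono β) :=
  Finset.measurable_prod _ fun j _ => (measurable_pi_apply j).pow_const _

lemma NN_meas (β : Fin n → ℤ) : Measurable (NN β) := (mono_meas β).norm.pow_const 2

lemma NN_int {U : Set (Fin n → ℂ)} (h1 : IsOpen U) (h2 : U.Nonempty) {β : Fin n → ℤ}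
    (h : IntegrableOn (NN β) U) : 0 < ∫ z in U, NN β z := by
  rw [setIntegral_pos_iff_support_of_nonneg_ae (f := NN β)
    (Eventually.of_forall fun _ => sq_nonneg _) h]
  exact ((Z_open.inter h1).measure_pos _ (Set.inter_comm _ _ ▸ Z_dense.inter_open_nonempty _ h1
    h2)).trans_le (measure_mono (Set.inter_subset_inter_left _ fun z hz => (NN_pos β hz).ne'))

def Al (Ω : Set (Fin n → ℂ)) (β : Fin n → ℤ) : Prop := IntegrableOn (NN β) Ω ∧ Adm Ω β

open Classical in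
noncomputable def MM (Ω : Set (Fin n → ℂ)) (β : Fin n → ℤ) : ℝ :=
  if Al Ω β then ∫ z in Ω, NN β z else 0

lemma MM_nonneg (β : Fin n → ℤ) : 0 ≤ MM Ω β := by
  unfold MM
  split_ifs
  exacts [integral_nonneg fun _ => sq_nonneg _, le_rfl]

lemma step (H : Rh Ω) (hc : IsConnected Ω) (hb : Bornology.IsBounded Ω) {f : (Fin n → ℂ) → ℂ}
    (hf : DifferentiableOn ℂ f Ω) (T : Berg Ω →L[ℂ] Lp ℂ 2 (volume.restrict Ω))
    (hD : Dense {g : Berg Ω | MemLp (fun z => conj (f z) * g.1 z) 2 (volume.restrict Ω)})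
    (hT : ∀ g : Berg Ω, ∀ hg : MemLp (fun z => conj (f z) * g.1 z) 2 (volume.restrict Ω),
      hg.toLp _ - T g ∈ Berg Ω)
    {α γ : Fin n → ℤ} {a : ℂ} (ha : ∀ z ∈ Ω ∩ ZZ n, co f α z = a) (a0 : a ≠ 0) (hα : Adm Ω α)
    (hγ : Al Ω γ) {u : Berg Ω} (hu : u.1 =ᵐ[volume.restrict Ω] mono γ) : Al Ω (γ + α) ∧
      ‖a‖ ^ 2 * (MM Ω (γ + α) - MM Ω γ * (MM Ω γ / MM Ω (γ - α))) ≤ ‖T u‖ ^ 2 := by
  obtain ⟨K, K1, K2, K4, K5, K3⟩ := H.exh hb
  obtain ⟨l, hl⟩ : ∃ l, volume (K l) ≠ 0 := by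
    by_contra! h
    exact (H.op.inter Z_open).measure_ne_zero volume (Z_dense.inter_open_nonempty _ H.op
      hc.nonempty) (K4 ▸ measure_iUnion_null h)
  obtain ⟨c, c0, h⟩ := est H hc hf T hD hT K1 K2 K3 ha hu hl
  have hZ : ∀ᵐ z ∂volume.restrict Ω, z ∈ ZZ n := ae_restrict_of_ae Z_ae
  have cov : AECover (volume.restrict Ω) atTop K := ⟨by
    filter_upwards [hZ, ae_restrict_mem H.op.measurableSet] with z h1 h2
    obtain ⟨m, hm⟩ := Set.mem_iUnion.1 (K4.ge ⟨h2, h1⟩)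
    exact (eventually_ge_atTop m).mono fun _ k => K5 k hm, fun m => (K1 m).measurableSet⟩
  have r : ∀ m, (volume.restrict Ω).restrict (K m) = volume.restrict (K m) := fun m =>
    Measure.restrict_restrict_of_subset fun _ hz => (K2 m hz).1
  set G := fun z => ‖conj a * NN α z - c‖ ^ 2 * NN (γ - α) z with hG
  have Gi : Integrable G (volume.restrict Ω) := cov.integrable_of_integral_bounded_of_nonneg_ae _
    (fun m => by
      rw [IntegrableOn, r]
      exact (((((continuousOn_const.mul (NN_cont' α)).sub continuousOn_const).norm.pow 2).mul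
        (NN_cont _)).mono fun _ hz => (K2 m hz).2).integrableOn_compact (K1 m))
    (Eventually.of_forall fun _ => mul_nonneg (sq_nonneg _) (sq_nonneg _))
    (Eventually.of_forall fun m => (r m).symm ▸ h m)
  have Gb : ∫ z in Ω, G z ≤ ‖T u‖ ^ 2 := le_of_tendsto'
    (cov.integral_tendsto_of_countably_generated Gi) fun m => (r m).symm ▸ h m
  have pw : ∀ᵐ z ∂volume.restrict Ω, ‖a‖ ^ 2 * NN (γ + α) z + ‖c‖ ^ 2 * NN (γ - α) z ≤
      G z + 2 * ‖a‖ * ‖c‖ * NN γ z := hZ.mono fun z hz => by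
    have e := NN_add (γ - α) α hz
    rw [sub_add_cancel] at e
    have k := sq_le_sq' (abs_le.1 (abs_norm_sub_norm_le (conj a * NN α z) c)).1
      (norm_sub_norm_le _ _)
    rw [norm_mul, norm_conj, norm_real, Real.norm_of_nonneg (NN_pos α hz).le] at k
    rw [NN_add γ α hz, e]
    nlinarith [mul_le_mul_of_nonneg_right k (NN_pos (γ - α) hz).le]
  have Ri := Gi.add (hγ.1.const_mul (2 * ‖a‖ * ‖c‖))
  have q : ∀ (δ : Fin n → ℤ) (b : ℂ), b ≠ 0 → (∀ᵐ z ∂volume.restrict Ω, ‖b‖ ^ 2 * NN δ z ≤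
      G z + 2 * ‖a‖ * ‖c‖ * NN γ z) → IntegrableOn (NN δ) Ω := fun δ b b0 hb =>
    (Ri.div_const (‖b‖ ^ 2)).mono' (NN_meas δ).aestronglyMeasurable (hb.mono fun z hz => by
      rwa [Real.norm_of_nonneg (r := NN δ z) (sq_nonneg _), le_div_iff₀' (by positivity)])
  have nn : ∀ (δ : Fin n → ℤ) (b : ℂ) z, 0 ≤ ‖b‖ ^ 2 * NN δ z := fun _ _ _ =>
    mul_nonneg (sq_nonneg _) (sq_nonneg _)
  have A1 : Al Ω (γ + α) := ⟨q _ a a0 (pw.mono fun z hz => by linarith [nn (γ - α) c z]),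
    fun p hp i hi => add_nonneg (hγ.2 p hp i hi) (hα p hp i hi)⟩
  refine ⟨A1, ?_⟩
  rcases eq_or_ne c 0 with e | e
  · have := integral_mono_ae (A1.1.const_mul (‖a‖ ^ 2)) Gi (pw.mono fun z hz => by
      simpa [e] using hz)
    rw [integral_const_mul] at this
    have k := mul_nonneg (sq_nonneg ‖a‖) (mul_nonneg (MM_nonneg (Ω := Ω) γ)
      (div_nonneg (MM_nonneg (Ω := Ω) γ) (MM_nonneg (Ω := Ω) (γ - α))))
    rw [MM, if_pos A1]
    linarith
  · have A2 : Al Ω (γ - α) := ⟨q _ c e (pw.mono fun z hz => by linarith [nn (γ + α) a z]),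
      not_not.1 (mt c0 e)⟩
    have := integral_mono_ae ((A1.1.const_mul (‖a‖ ^ 2)).add (A2.1.const_mul (‖c‖ ^ 2))) Ri pw
    rw [integral_add' (A1.1.const_mul _) (A2.1.const_mul _), integral_add' Gi (hγ.1.const_mul _),
      integral_const_mul, integral_const_mul, integral_const_mul] at this
    have p := NN_int H.op hc.nonempty A2.1
    simp only [MM, if_pos A1, if_pos A2, if_pos hγ]
    generalize ∫ z in Ω, NN (γ - α) z = x at *
    generalize ∫ z in Ω, NN γ z = y at *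
    have k : 0 ≤ (‖c‖ * x - ‖a‖ * y) ^ 2 / x := by positivity
    have e2 : (‖c‖ * x - ‖a‖ * y) ^ 2 / x = ‖c‖ ^ 2 * x - 2 * ‖a‖ * ‖c‖ * y +
      ‖a‖ ^ 2 * (y * (y / x)) := by field_simp; ring
    linarith

lemma grow (H : Rh Ω) {α γ : Fin n → ℤ} {z : Fin n → ℂ} (hz : z ∈ Ω ∩ ZZ n) {b : ℝ} (b0 : 0 < b)
    (hb : b < NN α z) (h : ∀ k : ℕ, Al Ω (γ + k • α) ∧ MM Ω (γ + k • α) ≤ b ^ k * MM Ω γ) :
    False := by
  obtain ⟨c, h1, h2⟩ := exists_between hb
  have c0 := b0.trans h1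
  have U1 : IsOpen (Ω ∩ (ZZ n ∩ NN α ⁻¹' Set.Ioi c)) :=
    H.op.inter ((NN_cont α).isOpen_inter_preimage Z_open isOpen_Ioi)
  have i0 : IntegrableOn (NN γ) Ω := by simpa using (h 0).1.1
  have p := NN_int U1 ⟨z, hz.1, hz.2, h2⟩ (i0.mono_set Set.inter_subset_left)
  have k : ∀ k : ℕ, c ^ k * ∫ z in Ω ∩ (ZZ n ∩ NN α ⁻¹' Set.Ioi c), NN γ z ≤ b ^ k * MM Ω γ :=
    fun k => by
    refine le_trans ?_ (h k).2
    rw [MM, if_pos (h k).1, ← integral_const_mul]
    refine (setIntegral_mono_on ((i0.mono_set Set.inter_subset_left).const_mul _)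
      ((h k).1.1.mono_set Set.inter_subset_left) U1.measurableSet fun w hw => ?_).trans
      (setIntegral_mono_set (h k).1.1 (Eventually.of_forall fun _ => sq_nonneg _)
      Set.inter_subset_left.eventuallyLE)
    clear h
    induction k with
    | zero => simp
    | succ k ih =>
      rw [succ_nsmul, ← add_assoc, NN_add _ α hw.2.1, pow_succ, mul_right_comm]
      exact mul_le_mul ih (le_of_lt hw.2.2) c0.le (sq_nonneg _)
  obtain ⟨m, hm⟩ := (((tendsto_pow_atTop_atTop_of_one_lt ((one_lt_div b0).2 h1)).atTop_mul_const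
    p).eventually_gt_atTop (MM Ω γ)).exists
  rw [div_pow, div_mul_eq_mul_div, lt_div_iff₀' (by positivity)] at hm
  exact hm.not_ge (k m)

lemma line (H : Rh Ω) (hc : IsConnected Ω) {α γ : Fin n → ℤ} {z w : Fin n → ℂ}
    (hz : z ∈ Ω ∩ ZZ n) (hw : w ∈ Ω ∩ ZZ n) {a b : ℝ} (h1 : NN α z < a) (h2 : a < b)
    (h3 : b < NN α w) (hγ : Al Ω γ) {d : (Fin n → ℤ) → ℝ} (d0 : ∀ β, 0 ≤ d β)
    (hd : ∀ β, Al Ω β → Al Ω (β + α) ∧ MM Ω (β + α) / MM Ω β - MM Ω β / MM Ω (β - α) ≤ d β)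
    (hs : Summable fun k : ℤ => d (γ + k • α)) : b - a ≤ ∑' k : ℤ, d (γ + k • α) := by
  have a0 := (NN_pos α hz.2).trans h1
  have p : ∀ β, Al Ω β → 0 < MM Ω β := fun β h => by
    rw [MM, if_pos h]; exact NN_int H.op hc.nonempty h.1
  have up : ∀ β, Al Ω β → ∀ k : ℕ, Al Ω (β + k • α) ∧ MM Ω (β + k • α) / MM Ω (β + k • α - α) -
      MM Ω β / MM Ω (β - α) ≤ ∑ j ∈ Finset.range k, d (β + j • α) := fun β h k => by
    induction k with
    | zero => simpa using h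
    | succ k ih =>
      rw [succ_nsmul, ← add_assoc, add_sub_cancel_right, Finset.sum_range_succ]
      exact ⟨(hd _ ih.1).1, by linarith [(hd _ ih.1).2, ih.2]⟩
  obtain ⟨k, hk⟩ : ∃ k : ℕ, b < MM Ω (γ + k • α) / MM Ω (γ + k • α - α) := by
    by_contra! h
    refine grow H hw (a0.trans h2) h3 fun k => ⟨(up γ hγ k).1, ?_⟩
    induction k with
    | zero => simp
    | succ k ih =>
      have := h (k + 1)
      rw [succ_nsmul, ← add_assoc, add_sub_cancel_right, div_le_iff₀ (p _ (up γ hγ k).1)] at this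
      rw [succ_nsmul, ← add_assoc, pow_succ', mul_assoc]
      exact this.trans (mul_le_mul_of_nonneg_left ih (a0.trans h2).le)
  obtain ⟨l, l1, l2⟩ : ∃ l : ℕ, Al Ω (γ + l • -α) ∧
      MM Ω (γ + l • -α) / MM Ω (γ + l • -α - α) < a := by
    by_contra! h
    have e := NN_add α (-α) hz.2
    rw [add_neg_cancel, show NN 0 z = 1 by simp [NN, mono]] at e
    refine grow H (α := -α) (γ := γ) hz (inv_pos.2 a0) (by
      rw [inv_lt_iff_one_lt_mul₀' a0, e]
      exact mul_lt_mul_of_pos_right h1 (NN_pos _ hz.2)) fun k => ?_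
    induction k with
    | zero => simpa using hγ
    | succ k ih =>
      have := h k ih.1
      rw [succ_nsmul, ← add_assoc, ← sub_eq_add_neg]
      have A : Al Ω (γ + k • -α - α) := by
        by_contra e
        rw [MM, MM, if_neg e, div_zero] at this
        linarith
      rw [le_div_iff₀' (p _ A), ← le_div_iff₀ a0, div_eq_inv_mul] at this
      rw [pow_succ', mul_assoc]
      exact ⟨A, this.trans (mul_le_mul_of_nonneg_left ih.2 (inv_pos.2 a0).le)⟩
  have u := (up _ l1 (l + k)).2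
  have e : ∀ j : ℕ, γ + l • -α + j • α = γ + ((j : ℤ) - l) • α := fun j => by
    rw [sub_smul, natCast_zsmul, natCast_zsmul, smul_neg]
    abel
  rw [show γ + l • -α + (l + k) • α = γ + k • α by rw [add_smul, smul_neg]; abel] at u
  simp only [e] at u
  have := hs.sum_le_tsum ((Finset.range (l + k)).image fun j : ℕ => (j : ℤ) - l) fun _ _ => d0 _
  rw [Finset.sum_image fun _ _ _ _ h => by simpa using h] at this
  linarith

end Pool.Agent.H.MP_dc9318_an
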